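import Pool.Agent.Helper19.TGX.Goals
import Pool.Agent.Helper38.UQ.DERF

/-!
# Packet TGX-ALGZ: an element killed by all derivations over `K` is algebraic over `K`
-/

set_option autoImplicit false

namespace Pool.Agent.Helper7.TGX.ALGZ

theorem t : Pool.Agent.Helper19.TGX.ALGZ := by
  intro K Ω _ _ _ _ _ z hz
  by_contra hc
  have hx : Transcendental K z := hc
  have hind : AlgebraicIndepOn K id ({z} : Set Ω) :=
    algebraicIndependent_unique_type_iff.mpr hx
  obtain ⟨u, hsu, hu⟩ := exists_isTranscendenceBasis_superset hind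
  obtain ⟨D, hD⟩ := Pool.Agent.Helper38.UQ.DERF.t K Ω u ((↑) : u → Ω) (fun _ => 1) hu
  have h1 := hD ⟨z, hsu rfl⟩
  have h2 : D z = 1 := h1
  rw [hz D] at h2
  exact zero_ne_one h2

end Pool.Agent.Helper7.TGX.ALGZ
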